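import Pool.Agent.Lib.MP_688fd0_co.TE.H41.Choice
import Pool.Agent.Lib.MP_688fd0_co.TF.Defs

/-!
# Theorem F, module CHOICEF (the maximiser is large)
-/

namespace Pool.Agent.Lib.MP_688fd0_co.TF.H41

open Finset Pool.Agent.Lib.MP_688fd0_co.TE

universe u

theorem choicef : CHOICEF_S.{u} := by
  intro G _ _ _ A C hA hC κ k _ hκ hn
  classical
  set n : ℝ := (Fintype.card G : ℝ) with hndef
  have hn1 : (1 : ℝ) ≤ n := by
    rw [hndef]
    exact_mod_cast Fintype.card_pos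
  have hn0 : (0 : ℝ) < n := by linarith
  have hκ0 : 0 < κ := by linarith
  set F : Finset G → ℝ := fun B => (B.card : ℝ) ^ κ * qf B C false k * qf B C true k with hF
  have hmem : ∀ B : Finset G, B ∈ (A.powerset).filter (fun B : Finset G => Sy B) ↔
      B ⊆ A ∧ Sy B := by
    intro B
    rw [Finset.mem_filter, Finset.mem_powerset]
  obtain ⟨B, hB, hmax⟩ := Finset.exists_max_image
    ((A.powerset).filter (fun B : Finset G => Sy B)) F
    ⟨A, (hmem A).mpr ⟨Finset.Subset.refl _, hA⟩⟩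
  obtain ⟨hBA, hSy⟩ := (hmem B).mp hB
  refine ⟨B, hBA, hSy, ?_, fun B' h1 h2 => hmax B' ((hmem B').mpr ⟨h1, h2⟩)⟩
  have hbpos : (0 : ℝ) < (B.card : ℝ) := by exact_mod_cast hSy.ne.card_pos
  have hapos : (1 : ℝ) ≤ (A.card : ℝ) := by exact_mod_cast hA.ne.card_pos
  have hapos0 : (0 : ℝ) < (A.card : ℝ) := by linarith
  have hup : F B ≤ (B.card : ℝ) ^ κ := by
    have h2 := TE.H41.qf_le_one hSy hC false k
    have h3 := TE.H41.qf_le_one hSy hC true k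
    have h4 := TE.H41.qf_pos hSy hC false k
    have h5 := TE.H41.qf_pos hSy hC true k
    have h6 : 0 ≤ (B.card : ℝ) ^ κ := Real.rpow_nonneg (Nat.cast_nonneg _) _
    calc F B = (B.card : ℝ) ^ κ * qf B C false k * qf B C true k := rfl
      _ ≤ (B.card : ℝ) ^ κ * 1 * 1 := by gcongr
      _ = (B.card : ℝ) ^ κ := by rw [mul_one, mul_one]
  have hlow : (A.card : ℝ) ^ κ * (1 / n) * (1 / n) ≤ F B := by
    refine le_trans ?_ (hmax A ((hmem A).mpr ⟨Finset.Subset.refl _, hA⟩))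
    have h4 := TE.H41.qf_low hA hC false k
    have h5 := TE.H41.qf_low hA hC true k
    have h6 : 0 ≤ (A.card : ℝ) ^ κ := Real.rpow_nonneg (Nat.cast_nonneg _) _
    have h7 : 0 ≤ 1 / n := by positivity
    exact mul_le_mul (mul_le_mul_of_nonneg_left h4 h6) h5 h7
      (mul_nonneg h6 (TE.H41.qf_pos hA hC false k).le)
  by_contra hlt
  push Not at hlt
  -- `|B| ^ κ < |A| ^ (κ / 2)`
  have h1 : (B.card : ℝ) < (A.card : ℝ) ^ (1 / 2 : ℝ) := by
    rw [← Real.sqrt_eq_rpow]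
    exact Real.lt_sqrt_of_sq_lt hlt
  have h2 : (B.card : ℝ) ^ κ < (A.card : ℝ) ^ (κ / 2) := by
    have h3 := Real.rpow_lt_rpow hbpos.le h1 hκ0
    rw [← Real.rpow_mul hapos0.le] at h3
    have h4 : 1 / 2 * κ = κ / 2 := by ring
    rw [h4] at h3
    exact h3
  -- `n ^ 2 ≤ |A| ^ (κ / 2 - 1)`
  have h5 : n ^ 2 ≤ (A.card : ℝ) ^ (κ / 2 - 1) := by
    have h6 : ((A.card : ℝ) ^ (κ / 2 - 1)) ^ 2 = (A.card : ℝ) ^ (κ - 2) := by
      rw [← Real.rpow_natCast, ← Real.rpow_mul hapos0.le]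
      congr 1
      push_cast
      ring
    have h7 : (n ^ 2) ^ 2 ≤ ((A.card : ℝ) ^ (κ / 2 - 1)) ^ 2 := by
      rw [h6]
      calc (n ^ 2) ^ 2 = n ^ 4 := by ring
        _ ≤ _ := hn
    exact (pow_le_pow_iff_left₀ (by positivity) (Real.rpow_nonneg hapos0.le _)
      (by norm_num)).mp h7
  have h8 : (A.card : ℝ) ^ κ = (A.card : ℝ) ^ (κ / 2) * (A.card : ℝ) *
      (A.card : ℝ) ^ (κ / 2 - 1) := by
    have h9 : (A.card : ℝ) ^ (κ / 2) * (A.card : ℝ) * (A.card : ℝ) ^ (κ / 2 - 1) =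
        (A.card : ℝ) ^ (κ / 2) * (A.card : ℝ) ^ (1 : ℝ) * (A.card : ℝ) ^ (κ / 2 - 1) := by
      rw [Real.rpow_one]
    rw [h9, ← Real.rpow_add hapos0, ← Real.rpow_add hapos0]
    congr 1
    ring
  have h10 : (A.card : ℝ) ^ (κ / 2) ≤ F B := by
    refine le_trans ?_ hlow
    have h11 : (0 : ℝ) < n ^ 2 := by positivity
    have h12 : (A.card : ℝ) ^ κ * (1 / n) * (1 / n) = (A.card : ℝ) ^ κ / n ^ 2 := by
      field_simp
    rw [h12, le_div_iff₀ h11, h8]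
    have h13 : 0 ≤ (A.card : ℝ) ^ (κ / 2) := Real.rpow_nonneg hapos0.le _
    calc (A.card : ℝ) ^ (κ / 2) * n ^ 2 ≤ (A.card : ℝ) ^ (κ / 2) * (A.card : ℝ) ^ (κ / 2 - 1) :=
          mul_le_mul_of_nonneg_left h5 h13
      _ = (A.card : ℝ) ^ (κ / 2) * 1 * (A.card : ℝ) ^ (κ / 2 - 1) := by ring
      _ ≤ (A.card : ℝ) ^ (κ / 2) * (A.card : ℝ) * (A.card : ℝ) ^ (κ / 2 - 1) := by
          have h14 : 0 ≤ (A.card : ℝ) ^ (κ / 2 - 1) := Real.rpow_nonneg hapos0.le _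
          gcongr
  linarith

end Pool.Agent.Lib.MP_688fd0_co.TF.H41
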